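import Pool.Agent.Helper28.Res.Top

/-!
# MP_d365ae_co: `m(3,s) = C(3s+2,3)` for every `s ≥ 3`

Outline of the proof (details in `Pool/Agent/Helper28/Res/` and the files imported there):

1. `Res12.Hyp F s` is the working form of the hypotheses: `F` is a 3-graph, no matching has more
   than `s` edges, and any two vertices can be avoided by a matching with `s` edges.
2. `RouteA.SetUp`: `x`, `y` is a pair of vertices of maximal codegree `3 s - j` and `P` a maximum
   matching avoiding it.  The deficiency `|F| - C(3s+2,3)` is written exactly as a sum over the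
   pairs and triples of edges of `P`; since no pair of vertices has codegree above `3 s - j`, each
   pair with neighbours outside the matching is contained in many missing triples.
3. Exchange arguments (no `s + 1` disjoint edges; every matching with `s` edges avoiding `x`, `y`
   covers all common neighbours of `x`, `y`) give further missing triples, and the sum is at
   most 0 in each of the cases `j = 0`, `j = 1`, `j ≥ 2`: `RouteA.card_le`.
-/

namespace Pool.Agent.Results.MP_d365ae_co.ExactForAllS

open Finset

/-- The matching number `ν(F)`: the largest number of pairwise disjoint members of `F`. -/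
noncomputable def matchingNumber {n : ℕ} (F : Finset (Finset (Fin n))) : ℕ := by
  classical
  exact (F.powerset.filter
    (fun M => ∀ e ∈ M, ∀ f ∈ M, e ≠ f → Disjoint e f)).sup Finset.card

/-- The members of `F` which avoid `T`. -/
def avoiding {n : ℕ} (F : Finset (Finset (Fin n))) (T : Finset (Fin n)) :
    Finset (Finset (Fin n)) :=
  F.filter (fun e => e ∩ T = ∅)

/-- `F` is `t`-resilient: removing at most `t` vertices never lowers the matching number. -/
def IsResilient {n : ℕ} (t : ℕ) (F : Finset (Finset (Fin n))) : Prop :=
  ∀ T : Finset (Fin n), T.card ≤ t → matchingNumber (avoiding F T) = matchingNumber F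

theorem card_le_matchingNumber {n : ℕ} {F M : Finset (Finset (Fin n))} (hM : M ⊆ F)
    (hd : ∀ e ∈ M, ∀ f ∈ M, e ≠ f → Disjoint e f) : M.card ≤ matchingNumber F := by
  classical
  unfold matchingNumber
  apply Finset.le_sup (f := Finset.card)
  rw [mem_filter, mem_powerset]
  exact ⟨hM, hd⟩

theorem exists_matching {n : ℕ} (F : Finset (Finset (Fin n))) :
    ∃ M ⊆ F, (∀ e ∈ M, ∀ f ∈ M, e ≠ f → Disjoint e f) ∧ M.card = matchingNumber F := by
  classical
  have hne : (F.powerset.filter
      (fun M => ∀ e ∈ M, ∀ f ∈ M, e ≠ f → Disjoint e f)).Nonempty := by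
    refine ⟨∅, ?_⟩
    rw [mem_filter, mem_powerset]
    exact ⟨empty_subset _, by simp⟩
  obtain ⟨M, hM, hc⟩ := Finset.exists_mem_eq_sup _ hne Finset.card
  rw [mem_filter, mem_powerset] at hM
  exact ⟨M, hM.1, hM.2, hc.symm⟩

/-- The complete 3-graph on `3 s + 2` vertices: a matching with `s` edges avoiding `T`. -/
theorem exists_avoiding {s : ℕ} (T : Finset (Fin (3 * s + 2))) (hT : T.card ≤ 2) :
    ∃ M ⊆ avoiding (powersetCard 3 univ) T, (∀ e ∈ M, ∀ f ∈ M, e ≠ f → Disjoint e f) ∧
      M.card = s := by
  classical
  have hcard : Fintype.card (Fin s × Fin 3) ≤ Fintype.card {v // v ∈ Tᶜ} := by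
    rw [Fintype.card_prod, Fintype.card_fin, Fintype.card_fin, Fintype.card_coe, card_compl,
      Fintype.card_fin]
    omega
  obtain ⟨g⟩ := Function.Embedding.nonempty_of_card_le hcard
  have ginj : ∀ p q : Fin s × Fin 3, (g p : Fin (3 * s + 2)) = g q → p = q := by
    intro p q hpq
    exact g.injective (Subtype.ext hpq)
  let E : Fin s → Finset (Fin (3 * s + 2)) := fun i =>
    (univ : Finset (Fin 3)).image (fun j => (g (i, j) : Fin (3 * s + 2)))
  have hE3 : ∀ i, (E i).card = 3 := by
    intro i
    rw [card_image_of_injective]
    · simp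
    · intro j j' hjj
      have := ginj _ _ hjj
      simpa using this
  have hEd : ∀ i i', i ≠ i' → Disjoint (E i) (E i') := by
    intro i i' hii
    rw [Finset.disjoint_left]
    intro v hv hv'
    obtain ⟨j, -, hj⟩ := mem_image.1 hv
    obtain ⟨j', -, hj'⟩ := mem_image.1 hv'
    have := ginj _ _ (hj.trans hj'.symm)
    apply hii
    simpa using (congrArg Prod.fst this)
  have hEinj : Function.Injective E := by
    intro i i' hii
    by_contra hne
    have h1 := hEd i i' hne
    rw [← hii, disjoint_self] at h1
    have h2 := hE3 i
    rw [h1] at h2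
    simp at h2
  refine ⟨univ.image E, ?_, ?_, ?_⟩
  · intro e he
    obtain ⟨i, -, rfl⟩ := mem_image.1 he
    unfold avoiding
    rw [mem_filter, mem_powersetCard]
    refine ⟨⟨subset_univ _, hE3 i⟩, ?_⟩
    rw [← Finset.disjoint_iff_inter_eq_empty, Finset.disjoint_left]
    intro v hv hvT
    obtain ⟨j, -, hj⟩ := mem_image.1 hv
    have h1 : (g (i, j) : Fin (3 * s + 2)) ∈ Tᶜ := (g (i, j)).2
    rw [hj, mem_compl] at h1
    exact h1 hvT
  · intro e he f hf hef
    obtain ⟨i, -, rfl⟩ := mem_image.1 he
    obtain ⟨i', -, rfl⟩ := mem_image.1 hf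
    exact hEd i i' fun h => hef (by rw [h])
  · rw [card_image_of_injective _ hEinj]
    simp

theorem matchingNumber_complete_le {s : ℕ} {F : Finset (Finset (Fin (3 * s + 2)))}
    (h3 : ∀ e ∈ F, e.card = 3) : matchingNumber F ≤ s := by
  classical
  obtain ⟨M, hM, hd, hc⟩ := exists_matching F
  rw [← hc]
  have h1 : (M.biUnion id).card = M.card * 3 := by
    rw [card_biUnion]
    · simp only [id]
      rw [Finset.sum_congr rfl (fun e he => h3 e (hM he)), Finset.sum_const, smul_eq_mul]
    · intro e he f hf hef
      exact hd e he f hf hef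
  have h2 : (M.biUnion id).card ≤ 3 * s + 2 := by
    have := card_le_univ (M.biUnion id)
    rwa [Fintype.card_fin] at this
  omega

/-- **Theorem.** For every `s ≥ 3` the largest number of edges of a 2-resilient 3-graph with
matching number `s` is exactly `C(3s+2,3)`. -/
theorem result : ∀ s ≥ 3,
    IsGreatest {m : ℕ | ∃ (n : ℕ) (F : Finset (Finset (Fin n))), (∀ e ∈ F, e.card = 3) ∧
      IsResilient 2 F ∧ matchingNumber F = s ∧ F.card = m} ((3 * s + 2).choose 3) := by
  classical
  intro s hs
  constructor
  · -- the complete 3-graph on `3 s + 2` vertices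
    have hν : ∀ T : Finset (Fin (3 * s + 2)), T.card ≤ 2 →
        matchingNumber (avoiding (powersetCard 3 univ) T) = s := by
      intro T hT
      apply le_antisymm
      · apply matchingNumber_complete_le
        intro e he
        exact (mem_powersetCard.1 (mem_filter.1 he).1).2
      · obtain ⟨M, hM, hd, hc⟩ := exists_avoiding T hT
        have h4 := card_le_matchingNumber hM hd
        omega
    have h0 : avoiding (powersetCard 3 (univ : Finset (Fin (3 * s + 2)))) ∅ =
        powersetCard 3 univ := by
      unfold avoiding
      simp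
    have hν0 : matchingNumber (powersetCard 3 (univ : Finset (Fin (3 * s + 2)))) = s := by
      rw [← h0]
      exact hν ∅ (by simp)
    refine ⟨3 * s + 2, powersetCard 3 univ, ?_, ?_, hν0, ?_⟩
    · intro e he
      exact (mem_powersetCard.1 he).2
    · intro T hT
      rw [hν T hT, hν0]
    · rw [card_powersetCard, card_univ, Fintype.card_fin]
  · rintro m ⟨n, F, h3, hres, hν, rfl⟩
    have hyp : Res12.Hyp F s := by
      refine ⟨h3, ?_, ?_⟩
      · intro P hP hm
        rw [← hν]
        exact card_le_matchingNumber hP hm
      · intro a b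
        have hT : ({a, b} : Finset (Fin n)).card ≤ 2 := card_le_two
        obtain ⟨M, hM, hd, hc⟩ := exists_matching (avoiding F {a, b})
        refine ⟨M, ?_, hd, ?_, ?_⟩
        · exact hM.trans (filter_subset _ _)
        · rw [hc, hres _ hT, hν]
        · intro e he
          have h4 : e ∩ {a, b} = ∅ := (mem_filter.1 (hM he)).2
          constructor
          · intro ha
            have : a ∈ e ∩ {a, b} := mem_inter.2 ⟨ha, by simp⟩
            rw [h4] at this
            simp at this
          · intro hb
            have : b ∈ e ∩ {a, b} := mem_inter.2 ⟨hb, by simp⟩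
            rw [h4] at this
            simp at this
    exact RouteA.card_le hyp hs

end Pool.Agent.Results.MP_d365ae_co.ExactForAllS
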